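import Pool.Agent.X22.ND10
import Pool.Agent.X22.CM

/-!
# Good ordinary reduction of the hyperelliptic curves `Y ^ 2 = X ^ (2 g + 1) + h (X) + m` of genus `g ≤ 4` at a positive proportion of the primes, for almost all
`m` in arbitrarily thin families and all `h` at once

Nothing is used besides Mathlib in the statement.
-/

set_option autoImplicit false

namespace Pool.Agent.Results.MP_17d720_ag.FewDigitOrdinaryCurves

open Finset Polynomial

/-- The polynomial `X ^ (2 g + 1) + h (X) + m` modulo `p`. -/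
noncomputable def poly (p g : ℕ) (h : ℤ[X]) (m : ℕ) : (ZMod p)[X] :=
  X ^ (2 * g + 1) + h.map (Int.castRingHom (ZMod p)) + C (m : ZMod p)

/-- The Cartier–Manin matrix of the curve `Y ^ 2 = f (X)` modulo the odd prime `p`: the entry with the number `(i, j)`, `1 ≤ i, j ≤ g`, is the coefficient of `X ^ (i p - j)` in
`f (X) ^ ((p - 1) / 2)`. -/
noncomputable def cartierManin (p g : ℕ) (f : (ZMod p)[X]) : Matrix (Fin g) (Fin g) (ZMod p) :=
  fun i j => (f ^ (p / 2)).coeff (((i : ℕ) + 1) * p - ((j : ℕ) + 1))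

/-- The curve `Y ^ 2 = X ^ (2 g + 1) + h (X) + m` has good ordinary reduction at the odd prime `p`: its polynomial has no multiple roots modulo `p`, and the Cartier–Manin matrix
is invertible (this means that the `p`-rank of the Jacobian is `g`). -/
def Ordinary (p g : ℕ) (h : ℤ[X]) (m : ℕ) : Prop :=
  (poly p g h m).Separable ∧ (cartierManin p g (poly p g h m)).det ≠ 0

/-- The digit number `i` (counted from the right, beginning with `0`) of `n` in base `b`. -/
def digit (b i n : ℕ) : ℕ := n / b ^ i % b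

/-- The number which arises from the number `N` with at most `K` digits in base `b`, if for every `i ∈ S`
the digit number `i` is replaced by `f i`. -/
def change (b K N : ℕ) (f : ℕ → ℕ) (S : Finset ℕ) : ℕ :=
  ∑ i ∈ range K, (if i ∈ S then f i else digit b i N) * b ^ i

open Classical in
/-- The number of the choices of `r` of `K` positions for which the number obtained by
changing the digits of `N` at the chosen positions (according to `f`) does not have the property `E`. -/
noncomputable def exceptions (b K r N : ℕ) (f : ℕ → ℕ) (E : ℕ → Prop) : ℕ :=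
  ((powersetCard r (range K)).filter (fun S => ¬ E (change b K N f S))).card

open Pool.Agent.X22.ND (op mem_op density_one)
open Pool.Agent.X22.CM

section
variable {p : ℕ} [hf : Fact p.Prime]

lemma range_inj (S : Finset ℕ) (hS : S ⊆ range p) : Set.InjOn (fun m : ℕ => (m : ZMod p)) S := by
  intro m hm m' hm' h
  have h1 := mem_range.1 (hS hm)
  have h2 := mem_range.1 (hS hm')
  have h5 := congrArg ZMod.val h
  simp only at h5
  rwa [ZMod.val_cast_of_lt h1, ZMod.val_cast_of_lt h2] at h5

/-- few constant terms give multiple roots -/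
lemma nonsep (f₀ : (ZMod p)[X]) (h0 : derivative f₀ ≠ 0) (S : Finset ℕ) (hS : S ⊆ range p)
    (h : ∀ m ∈ S, ¬ (f₀ + C (m : ZMod p)).Separable) : S.card ≤ (derivative f₀).natDegree := by
  classical
  obtain ⟨Ω, i1, i2, i3⟩ : ∃ (Ω : Type) (_ : Field Ω) (_ : Algebra (ZMod p) Ω), IsAlgClosed Ω :=
    ⟨AlgebraicClosure (ZMod p), inferInstance, inferInstance, inferInstance⟩
  have hsub : S.image (fun m : ℕ => algebraMap (ZMod p) Ω (m : ZMod p)) ⊆
      ((derivative f₀).aroots Ω).toFinset.image (fun ξ => -aeval ξ f₀) := by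
    intro z hz
    rw [mem_image] at hz
    obtain ⟨m, hm, rfl⟩ := hz
    have h1 := h m hm
    rw [separable_def, isCoprime_iff_aeval_ne_zero_of_isAlgClosed (ZMod p) Ω] at h1
    push Not at h1
    obtain ⟨ξ, h2, h3⟩ := h1
    rw [derivative_add, derivative_C, add_zero] at h3
    rw [mem_image]
    refine ⟨ξ, ?_, ?_⟩
    · rw [Multiset.mem_toFinset, mem_aroots]
      exact ⟨h0, h3⟩
    · rw [map_add, aeval_C] at h2
      rw [neg_eq_iff_eq_neg, eq_neg_iff_add_eq_zero]
      exact h2
  have hinj : Set.InjOn (fun m : ℕ => algebraMap (ZMod p) Ω (m : ZMod p)) S := by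
    intro m hm m' hm' hmm
    exact range_inj S hS hm hm' ((algebraMap (ZMod p) Ω).injective hmm)
  rw [← card_image_of_injOn hinj]
  refine (card_le_card hsub).trans (card_image_le.trans ((Multiset.toFinset_card_le _).trans ?_))
  exact (card_roots' _).trans natDegree_map_le

end

section
variable {p : ℕ} [hf : Fact p.Prime]

lemma bad_card (g : ℕ) (hg : 1 ≤ g) (h2 : p ≠ 2) (hp : p % (2 * g + 1) = 1) (h : ℤ[X]) (hh : h.natDegree ≤ 2 * g)
    (D : DecidablePred fun m => ¬ Ordinary p g h m) :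
    ((@Finset.filter ℕ (fun m => ¬ Ordinary p g h m) D (range p)).card : ℝ) ≤ (g : ℝ) ^ 2 / (2 * (2 * g + 1)) * p + 2 * g := by
  classical
  obtain ⟨h', hh'⟩ : ∃ h', h' = h.map (Int.castRingHom (ZMod p)) := ⟨_, rfl⟩
  have hd' : h'.natDegree ≤ 2 * g := by
    rw [hh']
    exact natDegree_map_le.trans hh
  obtain ⟨Q, hQ⟩ : ∃ Q, Q = (cm p (FM (2 * g + 1) h') g).det := ⟨_, rfl⟩
  have hdet := det_deg g hg h2 hp h' hd'
  rw [← hQ] at hdet
  have hev : ∀ m : ℕ, (cartierManin p g (poly p g h m)).det = Q.eval (m : ZMod p) := by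
    intro m
    have e1 := cm_map p (evalRingHom (m : ZMod p)) (FM (2 * g + 1) h') g
    rw [FM_map, ← hQ, coe_evalRingHom] at e1
    rw [e1, hh']
    rfl
  have hfield : 0 < p := hf.out.pos
  have hpg : (2 * g + 1 : ℕ) < p := by
    by_contra hcon
    push Not at hcon
    rcases hcon.lt_or_eq with h3 | h3
    · rw [Nat.mod_eq_of_lt h3] at hp
      exact absurd hp hf.out.one_lt.ne'
    · rw [← h3, Nat.mod_self] at hp
      omega
  have hder : derivative (X ^ (2 * g + 1) + h') ≠ 0 := by
    intro h0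
    have h3 := congrArg (fun P : (ZMod p)[X] => P.coeff (2 * g)) h0
    simp only [coeff_derivative, coeff_add, coeff_X_pow, coeff_zero] at h3
    rw [if_pos trivial, coeff_eq_zero_of_natDegree_lt (by omega : h'.natDegree < 2 * g + 1), add_zero, one_mul] at h3
    have h4 : ((2 * g + 1 : ℕ) : ZMod p) = 0 := by
      push_cast
      push_cast at h3
      exact h3
    rw [ZMod.natCast_eq_zero_iff] at h4
    exact absurd (Nat.le_of_dvd (by omega) h4) (by omega)
  have hsub : @Finset.filter ℕ (fun m => ¬ Ordinary p g h m) D (range p) ⊆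
      ((range p).filter (fun m => ¬ (X ^ (2 * g + 1) + h' + C (m : ZMod p)).Separable)) ∪
      ((range p).filter (fun m => Q.eval ((m : ℕ) : ZMod p) = 0)) := by
    intro m hm
    rw [mem_filter] at hm
    rw [mem_union, mem_filter, mem_filter]
    by_cases h3 : (X ^ (2 * g + 1) + h' + C (m : ZMod p)).Separable
    · right
      refine ⟨hm.1, ?_⟩
      by_contra h4
      apply hm.2
      refine ⟨?_, ?_⟩
      · unfold poly
        rw [← hh']
        exact h3
      · rw [hev]
        exact h4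
    · left
      exact ⟨hm.1, h3⟩
  have h5 : ((range p).filter (fun m : ℕ => ¬ (X ^ (2 * g + 1) + h' + C (m : ZMod p)).Separable)).card ≤ 2 * g := by
    refine (nonsep (X ^ (2 * g + 1) + h') hder _ (filter_subset _ _) (fun m hm => (mem_filter.1 hm).2)).trans ?_
    refine (natDegree_derivative_le _).trans ?_
    have : (X ^ (2 * g + 1) + h' : (ZMod p)[X]).natDegree ≤ 2 * g + 1 := by
      apply natDegree_add_le_of_degree_le
      · rw [natDegree_X_pow]
      · omega
    omega
  have h6 : ((range p).filter (fun m => Q.eval ((m : ℕ) : ZMod p) = 0)).card ≤ Q.natDegree := by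
    rw [← card_image_of_injOn (range_inj _ (filter_subset _ _))]
    refine (card_le_card (t := Q.roots.toFinset) ?_).trans ((Multiset.toFinset_card_le _).trans (card_roots' Q))
    intro z hz
    rw [mem_image] at hz
    obtain ⟨m, hm, rfl⟩ := hz
    rw [Multiset.mem_toFinset, mem_roots hdet.1]
    exact (mem_filter.1 hm).2
  have h7 := (card_le_card hsub).trans (card_union_le _ _)
  have h8 : ((@Finset.filter ℕ (fun m => ¬ Ordinary p g h m) D (range p)).card : ℝ) ≤ 2 * g + Q.natDegree := by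
    exact_mod_cast h7.trans (Nat.add_le_add h5 h6)
  have h9 : 2 * (2 * (g : ℝ) + 1) * Q.natDegree ≤ (p : ℝ) * g ^ 2 := by
    have h10 : 2 * (2 * g + 1) * Q.natDegree ≤ p * g ^ 2 := hdet.2.trans (Nat.mul_le_mul_right _ (Nat.sub_le _ _))
    exact_mod_cast h10
  have h11 : (Q.natDegree : ℝ) ≤ (g : ℝ) ^ 2 / (2 * (2 * g + 1)) * p := by
    rw [div_mul_eq_mul_div, le_div_iff₀ (by positivity)]
    linarith
  linarith

end

lemma ordinary_mod (p g : ℕ) (h : ℤ[X]) (m : ℕ) : Ordinary p g h m ↔ Ordinary p g h (m % p) := by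
  unfold Ordinary poly
  rw [ZMod.natCast_mod]

open Classical in
/-- **Ordinary reduction of hyperelliptic curves in thin families.** Let a base `b ≥ 2`, a genus `g ≥ 1`, `δ > 0` and an integer `A ≥ 0` be given. There are `c > 0` and `y₀` such that for
all integers `r`, `K`, `y` with `2 r ≤ K` and `y ≥ y₀` the following holds.

Let `0 ≤ N < b ^ K` be an arbitrary integer, prescribe for every position `j` a digit `d j` different from the digit of
`N` in base `b`, and let `H x` be for every `x` any set of at most `x ^ A` pairs of a polynomial `h` with integral coefficients of degree at most `2 g` and a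
set `P` of integers.
If one chooses `r` of the `K` positions and replaces the digits of `N` at these positions, then for all but at most a proportion
`1 / y ^ A` of the choices the number `m` obtained has the following property: for all integers `x` with
`y ≤ x ≤ exp (c r)` and all `(h, P) ∈ H x` the number of the primes `p ≤ x` in `P`, `p ≡ 1` modulo `2 g + 1`, at which the curve `Y ^ 2 = X ^ (2 g + 1) + h (X) + m` has good ordinary
reduction is at least `1 - g ^ 2 / (2 (2 g + 1))` times the number of all primes `p ≤ x` in `P`, `p ≡ 1` modulo `2 g + 1`, up to an error of at most `x ^ (1 / 2 + δ)`. The factor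
is `5 / 6`, `3 / 5`, `5 / 14` and `1 / 9` for `g = 1, 2, 3, 4`. -/
theorem result (b g : ℕ) (hb : 2 ≤ b) (hg : 1 ≤ g) (δ : ℝ) (hδ : 0 < δ) (A : ℕ) :
    ∃ c : ℝ, 0 < c ∧ ∃ y₀ : ℕ,
    ∀ K r y : ℕ, 2 * r ≤ K → y₀ ≤ y →
    ∀ N : ℕ, N < b ^ K → ∀ d : ℕ → ℕ, (∀ j, d j < b ∧ d j ≠ digit b j N) →
    ∀ (H : ℕ → Finset (ℤ[X] × Finset ℕ)), (∀ x, ∀ q ∈ H x, q.1.natDegree ≤ 2 * g) → (∀ x, (H x).card ≤ x ^ A) →
      (exceptions b K r N d (fun m => ∀ x : ℕ, y ≤ x → (x : ℝ) ≤ Real.exp (c * r) → ∀ q ∈ H x,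
        (1 - (g : ℝ) ^ 2 / (2 * (2 * g + 1))) *
            (((range (x + 1)).filter (fun p => p ∈ q.2 ∧ p.Prime ∧ p % (2 * g + 1) = 1)).card : ℝ) - (x : ℝ) ^ (1 / 2 + δ) ≤
          ((range (x + 1)).filter (fun p => (p ∈ q.2 ∧ p.Prime ∧ p % (2 * g + 1) = 1) ∧ Ordinary p g q.1 m)).card) : ℝ) ≤
        1 / (y : ℝ) ^ A * (K.choose r : ℝ) := by
  obtain ⟨c, hc, y₀, h⟩ := density_one b hb δ hδ A A (2 * g) (by positivity)
  refine ⟨c, hc, y₀ + 2, fun K r y hrK hy N hN d hd H hH1 hH => ?_⟩
  have hp2 : ∀ p : ℕ, p % (2 * g + 1) = 1 → p ≠ 2 := by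
    rintro p hp rfl
    rw [Nat.mod_eq_of_lt (by omega)] at hp
    omega
  have h2 := h K r y hrK (by omega) N hN d hd (ℤ[X] × Finset ℕ) H (fun x _ => hH x)
    (fun x q => (range (x + 1)).filter (fun p => p ∈ q.2 ∧ p.Prime ∧ p % (2 * g + 1) = 1))
    (by
      intro x q p hp
      rw [mem_filter, mem_range] at hp
      rw [mem_op]
      exact ⟨by omega, hp.2.2.1, hp2 p hp.2.2.2⟩)
    (fun q p m => ¬ Ordinary p g q.1 m) (fun q p m _ => by rw [ordinary_mod]) (fun _ => (g : ℝ) ^ 2 / (2 * (2 * g + 1))) (fun _ => by positivity)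
    (by
      intro x _ q hq p hp
      rw [mem_filter] at hp
      have hf : Fact p.Prime := ⟨hp.2.2.1⟩
      exact bad_card (p := p) g hg (hp2 p hp.2.2.2) hp.2.2.2 q.1 (hH1 x q hq) _)
    (fun m => ∀ x : ℕ, y ≤ x → (x : ℝ) ≤ Real.exp (c * r) → ∀ q ∈ H x,
        (1 - (g : ℝ) ^ 2 / (2 * (2 * g + 1))) *
            (((range (x + 1)).filter (fun p => p ∈ q.2 ∧ p.Prime ∧ p % (2 * g + 1) = 1)).card : ℝ) - (x : ℝ) ^ (1 / 2 + δ) ≤
          ((range (x + 1)).filter (fun p => (p ∈ q.2 ∧ p.Prime ∧ p % (2 * g + 1) = 1) ∧ Ordinary p g q.1 m)).card)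
    (by
      intro m hm x hyx hxr q hq
      have h3 : (((((range (x + 1)).filter (fun p => p ∈ q.2 ∧ p.Prime ∧ p % (2 * g + 1) = 1)).filter (fun p => ¬ Ordinary p g q.1 m)).card : ℕ) : ℝ) ≤
          (g : ℝ) ^ 2 / (2 * (2 * g + 1)) * ((((range (x + 1)).filter (fun p => p ∈ q.2 ∧ p.Prime ∧ p % (2 * g + 1) = 1)).card : ℕ) : ℝ) +
          (x : ℝ) ^ (1 / 2 + δ) := by
        convert hm x hyx hxr q hq
      have h4 : ((range (x + 1)).filter (fun p => (p ∈ q.2 ∧ p.Prime ∧ p % (2 * g + 1) = 1) ∧ Ordinary p g q.1 m)).card +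
          (((range (x + 1)).filter (fun p => p ∈ q.2 ∧ p.Prime ∧ p % (2 * g + 1) = 1)).filter (fun p => ¬ Ordinary p g q.1 m)).card =
          ((range (x + 1)).filter (fun p => p ∈ q.2 ∧ p.Prime ∧ p % (2 * g + 1) = 1)).card := by
        rw [← filter_filter (fun p => p ∈ q.2 ∧ p.Prime ∧ p % (2 * g + 1) = 1) (fun p => Ordinary p g q.1 m)]
        exact card_filter_add_card_filter_not _
      have h5 : ((((range (x + 1)).filter (fun p => (p ∈ q.2 ∧ p.Prime ∧ p % (2 * g + 1) = 1) ∧ Ordinary p g q.1 m)).card : ℕ) : ℝ) +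
          (((((range (x + 1)).filter (fun p => p ∈ q.2 ∧ p.Prime ∧ p % (2 * g + 1) = 1)).filter (fun p => ¬ Ordinary p g q.1 m)).card : ℕ) : ℝ) =
          ((((range (x + 1)).filter (fun p => p ∈ q.2 ∧ p.Prime ∧ p % (2 * g + 1) = 1)).card : ℕ) : ℝ) := by exact_mod_cast h4
      linarith)
  unfold exceptions
  exact h2

end Pool.Agent.Results.MP_17d720_ag.FewDigitOrdinaryCurves
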