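import Pool.Agent.X35.OR.Dens
import Pool.Agent.X35.OR.Hyp

/-!
# Good ordinary reduction at a positive proportion of the primes for all products of Jacobians of hyperelliptic curves `Y ^ 2 = X ^ (2 g_j + 1) + h_j (X) + m`
with `∑ g_j ^ 2 / (2 (2 g_j + 1)) < 1` (for example products of up to five elliptic curves), for all integers `m` near a thin sequence
-/

set_option autoImplicit false

namespace Pool.Agent.Results.MP_17d720_ag.ProductsNearSequences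

open Finset Polynomial

/-- The polynomial `X ^ (2 g + 1) + h (X) + m` modulo `p`. -/
noncomputable def poly (p g : ℕ) (h : ℤ[X]) (m : ℤ) : (ZMod p)[X] :=
  X ^ (2 * g + 1) + h.map (Int.castRingHom (ZMod p)) + C (m : ZMod p)

/-- The Cartier–Manin matrix of the curve `Y ^ 2 = f (X)` modulo the odd prime `p`: the entry with the number `(i, j)`, `1 ≤ i, j ≤ g`, is the coefficient of `X ^ (i p - j)` in
`f (X) ^ ((p - 1) / 2)`. -/
noncomputable def cartierManin (p g : ℕ) (f : (ZMod p)[X]) : Matrix (Fin g) (Fin g) (ZMod p) :=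
  fun i j => (f ^ (p / 2)).coeff (((i : ℕ) + 1) * p - ((j : ℕ) + 1))

/-- The curve `Y ^ 2 = X ^ (2 g + 1) + h (X) + m` has good ordinary reduction at the odd prime `p`: its polynomial has no multiple roots modulo `p`, and the Cartier–Manin matrix
is invertible (this means that the `p`-rank of the Jacobian is `g`). -/
def Ordinary (p g : ℕ) (h : ℤ[X]) (m : ℤ) : Prop :=
  (poly p g h m).Separable ∧ (cartierManin p g (poly p g h m)).det ≠ 0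

/-- The number `∑ g_j ^ 2 / (2 (2 g_j + 1))`. -/
noncomputable def defect {r : ℕ} (g : Fin r → ℕ) : ℝ := ∑ j, (g j : ℝ) ^ 2 / (2 * (2 * g j + 1))

/-- **Ordinary reduction of products of Jacobians near sequences.** Let `δ > 0` and `A` be given. There are `κ > 0` and `C > 0` such that for all
`v_i ≥ 1` with `∑ v_i ^ (-t) < ∞` for all `t > τ` (`τ ≥ 0`), all `θ < 1` and all choices of at most `x ^ A` sets `P ∈ H x` of
integers for every `x ≥ 2` (for instance the residue classes to all moduli `q ≤ x ^ B`) there is a set `E` of reals of Hausdorff dimension at most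
`(1 - κ + τ) / (1 - θ)` such that for every real `α > 0` outside `E` the following holds for ALL `r`, ALL `g_j ≥ 1` and ALL polynomials `h_j` (`j ≤ r`)
with integral coefficients of degree at most `2 g_j`.

There is `i₀` such that for all `i ≥ i₀`, ALL integers `m` with `||m| - α v_i| ≤ v_i ^ θ`, ALL integers `x` with
`(log |m|) ^ C ≤ x ≤ |m| ^ κ` and ALL `P ∈ H x`: the number of the odd primes `p ≤ x` in `P`, `p ≡ 1` modulo `2 g_j + 1` for all `j`, at which ALL the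
curves `Y ^ 2 = X ^ (2 g_j + 1) + h_j (X) + m` have good ordinary reduction is at least `1 - ∑ g_j ^ 2 / (2 (2 g_j + 1))` times the number of all odd
primes `p ≤ x` in `P`, `p ≡ 1` modulo `2 g_j + 1` for all `j`, up to an error of at most `x ^ (1 / 2 + δ)`. -/
theorem result (δ A : ℝ) (hδ : 0 < δ) : ∃ κ C : ℝ, 0 < κ ∧ 0 < C ∧
    ∀ (v : ℕ → ℝ) (τ θ : ℝ), (∀ i, 1 ≤ v i) → 0 ≤ τ → θ < 1 → (∀ t : ℝ, τ < t → Summable (fun i => v i ^ (-t))) →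
    ∀ (H : ℕ → Finset (Set ℕ)), (∀ x, 2 ≤ x → ((H x).card : ℝ) ≤ (x : ℝ) ^ A) →
    ∃ E : Set ℝ, dimH E ≤ ENNReal.ofReal ((1 - κ + τ) / (1 - θ)) ∧ ∀ α : ℝ, 0 < α → α ∉ E →
      ∀ (r : ℕ) (g : Fin r → ℕ) (h : Fin r → ℤ[X]), (∀ j, 1 ≤ g j ∧ (h j).natDegree ≤ 2 * g j) → ∃ i₀ : ℕ,
      ∀ i : ℕ, i₀ ≤ i → ∀ m : ℤ, |(|(m : ℝ)|) - α * v i| ≤ v i ^ θ →
        ∀ x : ℕ, Real.log |(m : ℝ)| ^ C ≤ x → (x : ℝ) ≤ |(m : ℝ)| ^ κ → ∀ P ∈ H x,
          (1 - defect g) * ({p : ℕ | p ≤ x ∧ p.Prime ∧ p ≠ 2 ∧ p ∈ P ∧ ∀ j, p % (2 * g j + 1) = 1}.ncard : ℝ) - (x : ℝ) ^ (1 / 2 + δ) ≤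
            ({p : ℕ | p ≤ x ∧ p.Prime ∧ p ≠ 2 ∧ p ∈ P ∧ (∀ j, p % (2 * g j + 1) = 1) ∧ ∀ j, Ordinary p (g j) (h j) m}.ncard : ℝ) := by
  classical
  obtain ⟨κ, C, hκ, hC, HH⟩ := Pool.Agent.X35.OR.dens_seq δ A hδ
  refine ⟨κ, C, hκ, hC, fun v τ θ hv1 hτ hθ hv H hH => ?_⟩
  have hc0 : Countable ℤ[X] := Pool.Agent.X35.GM.countable_int_poly
  obtain ⟨E, hE1, hE2⟩ := HH v τ θ hv1 hτ hθ hv H hH (Σ r : ℕ, (Fin r → ℕ × ℤ[X]))
    (fun c p => (∀ j, 1 ≤ (c.2 j).1 ∧ (c.2 j).2.natDegree ≤ 2 * (c.2 j).1) ∧ ∀ j, p % (2 * (c.2 j).1 + 1) = 1)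
    (fun c p m => ¬ ∀ j, Pool.Agent.X35.OR.Ord p (c.2 j).1 (c.2 j).2 m)
    (fun c => ∑ j, ((c.2 j).1 : ℝ) ^ 2 / (2 * (2 * (c.2 j).1 + 1))) (fun c => ∑ j, 2 * ((c.2 j).1 : ℝ))
    (fun c => ⟨sum_nonneg fun j _ => by positivity, sum_nonneg fun j _ => by positivity⟩)
    (by
      intro c p hp h2 _ m m' h
      rw [not_iff_not]
      exact forall_congr' fun j => Pool.Agent.X35.OR.ord_mod p _ _ m m' h)
    (by
      intro c p hp h2 hR
      have hf : Fact p.Prime := ⟨hp⟩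
      have h5 := Pool.Agent.X35.OR.bad_hyps (p := p) (fun j => (c.2 j).1) (fun j => (c.2 j).2) (fun j => (hR.1 j).1) h2 hR.2 (fun j => (hR.1 j).2)
      convert h5)
  refine ⟨E, hE1, fun α hα hαE r g h hgh => ?_⟩
  obtain ⟨i₀, hi₀⟩ := hE2 α hα hαE ⟨r, fun j => (g j, h j)⟩
  refine ⟨i₀, fun i hi m hm x hx1 hx2 P hP => ?_⟩
  have hmain := hi₀ i hi m hm x hx1 hx2 P hP
  have e1 : {p : ℕ | p ≤ x ∧ p.Prime ∧ p ≠ 2 ∧ p ∈ P ∧ ∀ j, p % (2 * g j + 1) = 1} =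
      ((Pool.Agent.X35.OR.sel x P (fun p => (∀ j, 1 ≤ g j ∧ (h j).natDegree ≤ 2 * g j) ∧ ∀ j, p % (2 * g j + 1) = 1) : Finset ℕ) : Set ℕ) := by
    ext p
    rw [mem_coe, Pool.Agent.X35.OR.mem_sel, Set.mem_ofPred_eq]
    tauto
  have e2 : {p : ℕ | p ≤ x ∧ p.Prime ∧ p ≠ 2 ∧ p ∈ P ∧ (∀ j, p % (2 * g j + 1) = 1) ∧ ∀ j, Ordinary p (g j) (h j) m} =
      ((Pool.Agent.X35.OR.sel x P (fun p => ((∀ j, 1 ≤ g j ∧ (h j).natDegree ≤ 2 * g j) ∧ ∀ j, p % (2 * g j + 1) = 1) ∧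
        ¬ ¬ ∀ j, Pool.Agent.X35.OR.Ord p (g j) (h j) m) : Finset ℕ) : Set ℕ) := by
    ext p
    rw [mem_coe, Pool.Agent.X35.OR.mem_sel, Set.mem_ofPred_eq, not_not]
    have : (∀ j, Ordinary p (g j) (h j) m) ↔ ∀ j, Pool.Agent.X35.OR.Ord p (g j) (h j) m := Iff.rfl
    tauto
  rw [e1, e2, Set.ncard_coe_finset, Set.ncard_coe_finset]
  exact hmain

end Pool.Agent.Results.MP_17d720_ag.ProductsNearSequences
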