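import Pool.Agent.X320.OP.Main

/-!
# Ordinary places are determined by the mod `ℓ` representation

Let `K` be a number field, `ℓ` an odd prime number, `S` a finite set of prime numbers containing `ℓ`, and for
`i = 1, ..., r` let `V_i` be a pure motive over `K` of weight `w_i` and rank `n_i` with rational coefficients, for
example `H^j(X)` for a smooth projective variety `X` over `K`, and `(k_i, h_i)` a point with integral coordinates on its
Hodge polygon which lies by `1 / 2` or `1` below the line of slope `w_i / 2`.

Let `N` be the group of the elements of the absolute Galois group `G_K` which act trivially on `T_i / ℓ T_i` for all `i`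
(`T_i` a stable lattice in the `ℓ`-adic realisation) and on the `ℓ`-th roots of unity; its index is at most
`ℓ ^ (1 + n_1^2 + ... + n_r^2)`.

**Theorem.** There is a subset `D` of `G_K / N`, stable under conjugation and containing `1`, such that, up to a set of
density zero, the places `v` at which the Newton polygons of all `V_i` meet the Hodge polygons in the points `(k_i, h_i)`
are the places whose Frobenius elements lie in `D`. In particular the set of these places has a density; it is the
rational number `#D / #(G_K / N)`, and at least `ℓ ^ -(1 + n_1^2 + ... + n_r^2)`. Among the places which split completely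
in the field `K(T_1 / ℓ, ..., T_r / ℓ, μ_ℓ)` the density is `1`.

The polygons coincide if and only if they meet in all vertices of the Hodge polygon. For the following cohomology groups
all vertices satisfy the condition, so that `D` gives the places of ordinary reduction: rank `2` with Hodge slopes
`a, a + 1` (elliptic curves), rank `4` with slopes `a, a, a + 1, a + 1` (abelian surfaces), and groups of even degree
with slopes `a - 1, a, ..., a, a + 1` (K3 surfaces, cubic fourfolds). So the theorem gives the existence of the
density of the places of good ordinary reduction, its rationality and a positive lower bound which depends only on the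
Betti numbers (take `ℓ = 3`) for every smooth projective variety `X` over every number field with
`h^{p, q} = 0` for `|p - q| > 2`, `h^{p, p + 1} ≤ 2` and `h^{p, p + 2} ≤ 1` for all `p`, and for finite products of such
varieties. For every abelian variety of dimension `g ≥ 2` the point `(2, 0)` satisfies the condition, and the theorem
describes the places at which the `p`-rank of the reduction is at least `2`.
-/

set_option autoImplicit false

namespace Pool.Agent.Results.MP_17d720_ag.ResidualDensity

open NumberField IsDedekindDomain Filter Topology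
open Pool.Agent.W401.Cheb (GK IsFrob)
open Pool.Agent.W528.Ord (ratio)
open Pool.Agent.W528.Ord.MultSystem (IsDeg1)
open Pool.Agent.X320.OP (HodgePoint ker NonScalar)

/-- `χ` is the `ℓ`-adic cyclotomic character: it is continuous, and `χ` is `N v` at the Frobenius elements at `v` -/
structure IsCyclotomic {K : Type} [Field K] [NumberField K] {ℓ : ℕ} [Fact ℓ.Prime] (χ : GK K →* ℤ_[ℓ]ˣ)
    (S : Finset ℕ) : Prop where
  cont : Continuous fun g : GK K => ((χ g : ℤ_[ℓ]ˣ) : ℤ_[ℓ])
  frob : ∀ v, IsDeg1 S v → ∀ γ, IsFrob v γ → ((χ γ : ℤ_[ℓ]ˣ) : ℤ_[ℓ]) = (Ideal.absNorm v.asIdeal : ℤ_[ℓ])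

/-- the number of elements of the image of `D` in `G / N`, divided by the order of `G / N` -/
noncomputable def proportion {G : Type} [Group G] (N : Subgroup G) (D : Set G) : ℝ :=
  (((QuotientGroup.mk : G → G ⧸ N) '' D).ncard : ℝ) / (Nat.card (G ⧸ N) : ℝ)

theorem result (K : Type) [Field K] [NumberField K] (ℓ : ℕ) [Fact ℓ.Prime] (hℓ : ℓ ≠ 2)
    {ι : Type} [Fintype ι] (V : ι → HodgePoint K ℓ) (χ : GK K →* ℤ_[ℓ]ˣ) (S : Finset ℕ)
    (hχ : IsCyclotomic χ S) (hV : ∀ i, (V i).IsPoint S) (hns : ∀ i, NonScalar V χ S i) :
    ∃ D : Set (GK K), 1 ∈ D ∧ (∀ σ ∈ D, ∀ τ, τ * σ * τ⁻¹ ∈ D) ∧ (∀ σ ∈ D, ∀ u ∈ ker V χ, σ * u ∈ D) ∧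
      Tendsto (ratio fun v : HeightOneSpectrum (𝓞 K) =>
        IsDeg1 S v ∧ ∃ γ, IsFrob v γ ∧ ¬ (γ ∈ D ↔ ∀ i, (V i).Meets v)) atTop (𝓝 0) ∧
      Tendsto (ratio fun v : HeightOneSpectrum (𝓞 K) => IsDeg1 S v ∧ ∀ i, (V i).Meets v) atTop
        (𝓝 (proportion (ker V χ) D)) ∧
      1 / (ℓ : ℝ) ^ (1 + ∑ i, (V i).n ^ 2) ≤ proportion (ker V χ) D :=
  ⟨Pool.Agent.X320.OP.Sig V χ, Pool.Agent.X320.OP.one_mem_Sig hV hχ.frob hns,
    Pool.Agent.X320.OP.Sig_conj, Pool.Agent.X320.OP.Sig_mul,
    Pool.Agent.X320.OP.ratio_of_dens (Pool.Agent.X320.OP.dens_exc hℓ hV hχ.cont hχ.frob),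
    Pool.Agent.X320.OP.ratio_of_dens (Pool.Agent.X320.OP.dens_good hℓ hV hχ.cont hχ.frob),
    Pool.Agent.X320.OP.proportion_ge hV hχ.cont (Pool.Agent.X320.OP.one_mem_Sig hV hχ.frob hns)⟩

end Pool.Agent.Results.MP_17d720_ag.ResidualDensity
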