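import Pool.Agent.X35.OR.ConsecD
import Pool.Agent.X35.OR.Hyp

/-!
# Strings of `s` consecutive terms of sequences of primes at which given products of Jacobians of hyperelliptic curves `Y ^ 2 = X ^ (2 g + 1) + h (X) + m` have good
ordinary reduction, for all integers `m` near a thin sequence
-/

set_option autoImplicit false

namespace Pool.Agent.Results.MP_17d720_ag.StringsOfPrimes

open Finset Polynomial

/-- The polynomial `X ^ (2 g + 1) + h (X) + m` modulo `p`. -/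
noncomputable def poly (p g : ℕ) (h : ℤ[X]) (m : ℤ) : (ZMod p)[X] :=
  X ^ (2 * g + 1) + h.map (Int.castRingHom (ZMod p)) + C (m : ZMod p)

/-- The Cartier–Manin matrix of the curve `Y ^ 2 = f (X)` modulo the odd prime `p`: the entry with the number `(i, j)`, `1 ≤ i, j ≤ g`, is the coefficient of `X ^ (i p - j)` in
`f (X) ^ ((p - 1) / 2)`. -/
noncomputable def cartierManin (p g : ℕ) (f : (ZMod p)[X]) : Matrix (Fin g) (Fin g) (ZMod p) :=
  fun i j => (f ^ (p / 2)).coeff (((i : ℕ) + 1) * p - ((j : ℕ) + 1))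

/-- The curve `Y ^ 2 = X ^ (2 g + 1) + h (X) + m` has good ordinary reduction at the odd prime `p`: its polynomial has no multiple roots modulo `p`, and the Cartier–Manin matrix
is invertible (this means that the `p`-rank of the Jacobian is `g`). -/
def Ordinary (p g : ℕ) (h : ℤ[X]) (m : ℤ) : Prop :=
  (poly p g h m).Separable ∧ (cartierManin p g (poly p g h m)).det ≠ 0

/-- The number `∑ g_j ^ 2 / (2 (2 g_j + 1))`. -/
noncomputable def defect {r : ℕ} (g : Fin r → ℕ) : ℝ := ∑ j, (g j : ℝ) ^ 2 / (2 * (2 * g j + 1))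

/-- A finite system of pairs `(g_j, h_j)` with `g_j ≥ 1` and `h_j ∈ ℤ[X]` of degree at most `2 g_j`. -/
structure System where
  /-- the number of the curves -/
  r : ℕ
  /-- the genera -/
  g : Fin r → ℕ
  /-- the polynomials -/
  h : Fin r → ℤ[X]
  pos : ∀ j, 1 ≤ g j
  deg : ∀ j, (h j).natDegree ≤ 2 * g j

/-- **Strings of primes of good ordinary reduction.** Let `s, B ≥ 1` and `δ > 0`. There are `κ > 0` and `C > 0` such that for all
`v_i ≥ 1` with `∑ v_i ^ (-t) < ∞` for all `t > τ` (`τ ≥ 0`), all `θ < 1` and every strictly increasing sequence `q_0, q_1, ...` of odd primes with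
`q_k ≤ (k + 2) ^ B` there is a set `E` of reals of Hausdorff dimension at most
`(1 - κ + τ) / (1 - θ)` such that for every real `α > 0` outside `E` the following holds for ALL systems `S_0, ..., S_{s-1}` of pairs `(g, h)` with
`∑_{(g, h) ∈ S_l} g ^ 2 / (2 (2 g + 1)) ≤ 1` for all `l < s`.

There is `i₀` such that for all `i ≥ i₀`, ALL integers `m` with `||m| - α v_i| ≤ v_i ^ θ` and ALL integers `K` with
`(log |m|) ^ C ≤ K ≤ |m| ^ κ`: the number of the `k < K` such that for all `l < s` ALL the curves `Y ^ 2 = X ^ (2 g + 1) + h (X) + m`, `(g, h) ∈ S_l`, have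
good ordinary reduction at `q_{k + l}`, and `q_{k + l} ≡ 1` modulo `2 g + 1`, is at least `∏_l (1 - ∑_{(g, h) ∈ S_l} g ^ 2 / (2 (2 g + 1)))` times the number of the
`k < K` such that for all `l < s` and `(g, h) ∈ S_l` `q_{k + l} ≡ 1` modulo `2 g + 1`, up to an error of at most `K ^ (1 / 2 + δ)`. -/
theorem result (s B : ℕ) (hs : 1 ≤ s) (hB : 1 ≤ B) (δ : ℝ) (hδ : 0 < δ) : ∃ κ C : ℝ, 0 < κ ∧ 0 < C ∧
    ∀ (v : ℕ → ℝ) (τ θ : ℝ), (∀ i, 1 ≤ v i) → 0 ≤ τ → θ < 1 → (∀ t : ℝ, τ < t → Summable (fun i => v i ^ (-t))) →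
    ∀ q : ℕ → ℕ, StrictMono q → (∀ k, (q k).Prime ∧ q k ≠ 2 ∧ q k ≤ (k + 2) ^ B) →
    ∃ E : Set ℝ, dimH E ≤ ENNReal.ofReal ((1 - κ + τ) / (1 - θ)) ∧ ∀ α : ℝ, 0 < α → α ∉ E →
      ∀ S : Fin s → System, (∀ l, defect (S l).g ≤ 1) → ∃ i₀ : ℕ,
      ∀ i : ℕ, i₀ ≤ i → ∀ m : ℤ, |(|(m : ℝ)|) - α * v i| ≤ v i ^ θ →
        ∀ K : ℕ, Real.log |(m : ℝ)| ^ C ≤ K → (K : ℝ) ≤ |(m : ℝ)| ^ κ →
          (∏ l, (1 - defect (S l).g)) * ({k : ℕ | k < K ∧ ∀ l : Fin s, ∀ j, q (k + l) % (2 * (S l).g j + 1) = 1}.ncard : ℝ) - (K : ℝ) ^ (1 / 2 + δ) ≤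
            ({k : ℕ | k < K ∧ ∀ l : Fin s, ∀ j, q (k + l) % (2 * (S l).g j + 1) = 1 ∧
              Ordinary (q (k + l)) ((S l).g j) ((S l).h j) m}.ncard : ℝ) := by
  classical
  obtain ⟨κ, C, hκ, hC, HH⟩ := Pool.Agent.X35.OR.consec_dens s B hs hB δ hδ
  refine ⟨κ, C, hκ, hC, fun v τ θ hv1 hτ hθ hv q hmono hq => ?_⟩
  have hc0 : Countable ℤ[X] := Pool.Agent.X35.GM.countable_int_poly
  have hcS : Countable System := by
    have h1 : Function.Injective (fun S : System => (⟨S.r, (S.g, S.h)⟩ : Σ r : ℕ, (Fin r → ℕ) × (Fin r → ℤ[X]))) := by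
      rintro ⟨r, g, h, _, _⟩ ⟨r', g', h', _, _⟩ he
      simp only [Sigma.mk.injEq] at he
      obtain ⟨rfl, he2⟩ := he
      have he3 := eq_of_heq he2
      simp only [Prod.mk.injEq] at he3
      obtain ⟨rfl, rfl⟩ := he3
      rfl
    exact h1.countable
  obtain ⟨Γ, hΓ⟩ : ∃ Γ : Type, Γ = {S : Fin s → System // ∀ l, defect (S l).g ≤ 1} := ⟨_, rfl⟩
  subst hΓ
  have hnn : ∀ {r : ℕ} (g : Fin r → ℕ), 0 ≤ defect g := fun g => sum_nonneg fun j _ => by positivity
  obtain ⟨E, hE1, hE2⟩ := HH v τ θ hv1 hτ hθ hv {S : Fin s → System // ∀ l, defect (S l).g ≤ 1}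
    (fun _ => q) (fun _ => ⟨hmono, fun k => ⟨(hq k).1, (hq k).2.2⟩⟩)
    (fun c l p m => (∀ j, p % (2 * (c.1 l).g j + 1) = 1) ∧ ∀ j, Pool.Agent.X35.OR.Ord p ((c.1 l).g j) ((c.1 l).h j) m)
    (fun c l p => if ∀ j, p % (2 * (c.1 l).g j + 1) = 1 then 1 - defect (c.1 l).g else 0)
    (fun c => ∑ l, ∑ j, 2 * ((c.1 l).g j : ℝ)) (fun c => sum_nonneg fun l _ => sum_nonneg fun j _ => by positivity)
    (fun c l k => by
      have h1 := c.2 l
      have h2 := hnn (c.1 l).g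
      split_ifs
      · constructor <;> linarith
      · exact ⟨le_rfl, zero_le_one⟩)
    (by
      intro c l k m m' h
      refine and_congr Iff.rfl (forall_congr' fun j => Pool.Agent.X35.OR.ord_mod (q k) _ _ m m' h))
    (by
      intro c l k
      have hf : Fact (q k).Prime := ⟨(hq k).1⟩
      have hM : ∑ j, 2 * ((c.1 l).g j : ℝ) ≤ ∑ l, ∑ j, 2 * ((c.1 l).g j : ℝ) :=
        single_le_sum (f := fun l => ∑ j, 2 * ((c.1 l).g j : ℝ)) (fun l _ => sum_nonneg fun j _ => by positivity) (mem_univ l)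
      by_cases hz : ∀ j, q k % (2 * (c.1 l).g j + 1) = 1
      · rw [if_pos hz]
        have h5 := Pool.Agent.X35.OR.bad_hyps (p := q k) (c.1 l).g (c.1 l).h (c.1 l).pos (hq k).2.1 hz (c.1 l).deg
        have h6 := card_filter_add_card_filter_not (s := range (q k)) (p := fun m : ℕ => ∀ j, Pool.Agent.X35.OR.Ord (q k) ((c.1 l).g j) ((c.1 l).h j) (m : ℤ))
        rw [card_range] at h6
        have h7 : (((range (q k)).filter (fun m : ℕ => ∀ j, Pool.Agent.X35.OR.Ord (q k) ((c.1 l).g j) ((c.1 l).h j) (m : ℤ))).card : ℝ) +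
            (((range (q k)).filter (fun m : ℕ => ¬ ∀ j, Pool.Agent.X35.OR.Ord (q k) ((c.1 l).g j) ((c.1 l).h j) (m : ℤ))).card : ℝ) = q k := by
          exact_mod_cast h6
        have h8 : (1 - defect (c.1 l).g) * (q k : ℝ) - ∑ l, ∑ j, 2 * ((c.1 l).g j : ℝ) ≤
            (((range (q k)).filter (fun m : ℕ => ∀ j, Pool.Agent.X35.OR.Ord (q k) ((c.1 l).g j) ((c.1 l).h j) (m : ℤ))).card : ℝ) := by
          have h9 : (((range (q k)).filter (fun m : ℕ => ¬ ∀ j, Pool.Agent.X35.OR.Ord (q k) ((c.1 l).g j) ((c.1 l).h j) (m : ℤ))).card : ℝ) ≤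
              defect (c.1 l).g * q k + ∑ j, 2 * ((c.1 l).g j : ℝ) := h5
          linarith
        refine h8.trans (le_of_eq ?_)
        congr 2
        ext m
        simp only [mem_filter]
        tauto
      · rw [if_neg hz, zero_mul]
        have h1 : 0 ≤ ∑ l, ∑ j, 2 * ((c.1 l).g j : ℝ) := sum_nonneg fun l _ => sum_nonneg fun j _ => by positivity
        exact (by linarith : (0 : ℝ) - ∑ l, ∑ j, 2 * ((c.1 l).g j : ℝ) ≤ 0).trans (Nat.cast_nonneg _))
  refine ⟨E, hE1, fun α hα hαE S hS => ?_⟩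
  obtain ⟨i₀, hi₀⟩ := hE2 α hα hαE ⟨S, hS⟩
  refine ⟨i₀, fun i hi m hm K hK1 hK2 => ?_⟩
  have hmain := hi₀ i hi m hm K hK1 hK2
  have e1 : {k : ℕ | k < K ∧ ∀ l : Fin s, ∀ j, q (k + l) % (2 * (S l).g j + 1) = 1} =
      (((range K).filter (fun k => ∀ l : Fin s, ∀ j, q (k + l) % (2 * (S l).g j + 1) = 1) : Finset ℕ) : Set ℕ) := by
    ext k
    rw [mem_coe, mem_filter, mem_range, Set.mem_ofPred_eq]
  have e2 : {k : ℕ | k < K ∧ ∀ l : Fin s, ∀ j, q (k + l) % (2 * (S l).g j + 1) = 1 ∧ Ordinary (q (k + l)) ((S l).g j) ((S l).h j) m} =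
      (((range K).filter (fun k => ∀ l : Fin s, ∀ j, q (k + l) % (2 * (S l).g j + 1) = 1 ∧ Ordinary (q (k + l)) ((S l).g j) ((S l).h j) m) :
        Finset ℕ) : Set ℕ) := by
    ext k
    rw [mem_coe, mem_filter, mem_range, Set.mem_ofPred_eq]
  rw [e1, e2, Set.ncard_coe_finset, Set.ncard_coe_finset]
  have e3 : ∑ k ∈ range K, ∏ l : Fin s, (if ∀ j, q (k + l) % (2 * (S l).g j + 1) = 1 then 1 - defect (S l).g else 0) =
      (∏ l, (1 - defect (S l).g)) * (((range K).filter (fun k => ∀ l : Fin s, ∀ j, q (k + l) % (2 * (S l).g j + 1) = 1)).card : ℝ) := by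
    rw [card_filter]
    push_cast
    rw [mul_sum]
    apply sum_congr rfl
    intro k _
    by_cases h : ∀ l : Fin s, ∀ j, q (k + l) % (2 * (S l).g j + 1) = 1
    · rw [if_pos h, mul_one]
      exact prod_congr rfl fun l _ => if_pos (h l)
    · rw [if_neg h, mul_zero]
      push Not at h
      obtain ⟨l, j, hj⟩ := h
      apply prod_eq_zero (mem_univ l)
      exact if_neg (fun h' => hj (h' j))
  rw [← e3]
  refine hmain.trans (le_of_eq ?_)
  congr 2
  ext k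
  simp only [mem_filter]
  refine and_congr Iff.rfl (forall_congr' fun l => ?_)
  constructor
  · rintro ⟨h1, h2⟩ j
    exact ⟨h1 j, h2 j⟩
  · intro h
    exact ⟨fun j => (h j).1, fun j => (h j).2⟩

end Pool.Agent.Results.MP_17d720_ag.StringsOfPrimes
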